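import Pool.Agent.H44T.BR.Abs

/-!
# Hodge classes are absolute Hodge: bounded defects vanish

Let `W s` be the Betti cohomology of the conjugates of complex varieties by the automorphisms `s` of the
complex numbers, with the Hodge classes, compared with the algebraic de Rham cohomology `R X` (Q1), or
with the `ℓ`-adic cohomology (Q2).

Fix the dimension `n` and the codimension `p`, for example `n = 4` and `p = 2`.

**Theorem.**

(1) On all smooth projective varieties `X` of dimension `n` all Hodge classes of codimension `p` are
absolute Hodge classes if and only if there is ONE number `d`, for example `d = 10 ^ 100`, such that for all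
these `X` the absolute Hodge classes form a subspace of codimension at most `d` of the space of the
Hodge classes of codimension `p`.

(2) For one polarized variety `(Y, D)` of dimension `n` all Hodge classes of codimension `p` are
absolute Hodge classes if, for some `N`, some smooth complete intersection `V ⊆ Y^N` of dimension `n` of
divisors in multiples of the class `D + ... + D` has the property that the codimension `d` of the space
of the absolute Hodge classes in the space of the Hodge classes satisfies `d dim H(Y) < N`.

Proof. Let `V ⊆ Y^N` be as above, with the projections `p_l : V → Y`. If `x` is orthogonal to the powers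
of `ξ` then `p_{m*} p_j^* x = 0` for `m ≠ j` and `p_{j*} p_j^* x = κ x`. Let `M` be a complement on `V` and
`N > d dim H(Y)`; there is a nontrivial relation `∑ b_l p_{l*} = 0` on `M`, so
`b_j κ x = ∑ b_l p_{l*} (p_j^* x)` is a sum of push-forwards of absolute Hodge classes. The powers of `ξ`
are algebraic.
-/

open CategoryTheory AlgebraicGeometry

universe u v w x

namespace Pool.Agent.Results.MP_e2e4f5_ag.BoundedDefects

open Pool.Agent.H914 Pool.Agent.H914.VarClass Pool.Agent.H914.VarClass.Obj
  Pool.Agent.H914.WeilCohomology Pool.Agent.V11106.SH Pool.Agent.H44T.BR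

/-- **Hodge classes are absolute Hodge on all varieties of dimension `n` if the defects are bounded.** -/
theorem result {k : Type u} [Field k] {𝒱 : VarClass k} {ops : CycleOps 𝒱} {S : Type w}
    (W : S → WeilCohomology.{u, v} ops) (Φ : HodgeFamily.{u, v, w, x} W) (s : S)
    (Pol : ∀ X : 𝒱.Obj, X.Cycles → Prop) (n p : ℕ) (hP : HasPowers (W s) Pol n) :
    (HodgeAbsoluteFor Φ s Pol n p ↔ ∃ d, HodgeDefectAtMost Φ s Pol n p d) ∧
    (∀ (Y : 𝒱.Obj) (D : Y.Cycles), Y.dim = n → Pol Y D → HasGoodHodgePower Φ s Y D p →
      Φ.hdg s Y p = absHodge Φ s Y p) :=
  ⟨hodgeAbsolute_iff Φ s hP p, fun _ _ hY hYD h => hodgeAbsolute_of_power Φ s hP p hY hYD h⟩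

end Pool.Agent.Results.MP_e2e4f5_ag.BoundedDefects
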