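import Pool.Agent.V11106.SH.AH2

/-!
# The de Rham part and the `ℓ`-adic part of the absolute Hodge conjecture, up to small errors

Let `W s` be a family of Weil cohomology theories (for the problem: the Betti cohomology, with
rational coefficients, of the conjugates of the complex varieties by the automorphisms `s` of the
complex numbers) on a class of varieties closed under products, with Hodge classes, and with
comparisons with several theories of rings, indexed by `l` (the algebraic de Rham cohomology, and
the `ℓ`-adic cohomology for all primes). Assume that the class contains, for every `N`, a surface
with algebraic cohomology and `N` independent divisor classes (a blow-up of the projective plane).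
Fix `s` and a set `J` of pairs `(l, t)`: for the first question of the problem `J` consists of all
pairs with `l` the de Rham cohomology, for the second question of all pairs with `l` an `ℓ`-adic
cohomology; `J` may also be a single pair (one automorphism and one comparison).

**Fixed dimension.** If on the varieties of dimension `n + 2` the dimension of the space of the
Hodge classes of codimension `p + 1` exceeds the dimension of the span of those whose conjugates for
all pairs of `J` are (separately for each pair) images of Hodge classes by at most `o(b)`, where `b`
is the Betti number `b_(2 p + 2)`, then on all varieties of dimension `n` the conjugates, for the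
pairs of `J`, of all Hodge classes of codimension `p` are images of Hodge classes.

**All dimensions.** Hence the question for `J` is equivalent to differences of these dimensions
which are bounded in each dimension and codimension, and to differences which are `o(b)`.
-/

open CategoryTheory AlgebraicGeometry

universe u v w x y

namespace Pool.Agent.Results.MP_e2e4f5_ag.SublinearDefects

open Pool.Agent.H914 VarClass Obj WeilCohomology Pool.Agent.V11106.LB Pool.Agent.V11106.SH

variable {k : Type u} [Field k] {𝒱 : VarClass k} {ops : CycleOps 𝒱}

theorem result {S : Type w} (W : S → WeilCohomology.{u, v} ops) {L : Type y}
    (Ψ : ComparedHodge.{u, v, w, x, y} W L) (J : Set (L × S)) (s : S)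
    (hT : HasRationalSurfaces (W s)) :
    (∀ n p : ℕ, ConjugatesSublinear Ψ J s (n + 2) (p + 1) → ConjugatesHodge Ψ J s n p) ∧
    [∀ n p : ℕ, ConjugatesHodge Ψ J s n p, ∀ n p : ℕ, ConjugatesBounded Ψ J s n p,
      ∀ n p : ℕ, ConjugatesSublinear Ψ J s n p].TFAE :=
  conj_main Ψ J s hT

end Pool.Agent.Results.MP_e2e4f5_ag.SublinearDefects
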