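import Mathlib
import Pool.Agent.H236.AH.Main

/-!
# The absolute Hodge conjecture for products of abelian varieties and other varieties

`A` is a product of copies of abelian varieties with nondegenerate CM types for pairwise independent
CM fields `E i`, `Z` is a smooth projective complex variety whose Betti numbers are small with respect
to the fields `E i` (or which is unrelated to them), `Y = A × Z`, and `A' × Z'` is the conjugate of
`Y` by an automorphism `σ` of the complex numbers. The comparison maps are: for the de Rham part of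
the conjecture `F ↦ (F^dR)_σ` and the comparison isomorphism for `Y_σ`, with values in
`M = H_dR(Y_σ)`; for the `ℓ`-adic part `F ↦ (F^ℓ)_σ` and the comparison isomorphism for `Y_σ`, with
values in `M = H_et(Y_σ, ℚ_ℓ)`; and the same for `Z`.

The conjecture for `A × Z` (the conjugates of all Hodge classes are Hodge classes) is true if and only
if the conjecture for `Z` is true.
-/

set_option autoImplicit false

namespace Pool.Agent.Results.MP_e2e4f5_ag.TimesAbelianVarieties

open NumberField Pool.Agent.H204R3.CM Pool.Agent.H977R3.CM Pool.Agent.TH131.GHC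
  Pool.Agent.TH504.VY Pool.Agent.TH170.CM Pool.Agent.Y1.HZ Pool.Agent.H236.AH

/-- The statement. -/
def Statement : Prop :=
  ∀ (ι : Type) [Fintype ι] (E : ι → Type) [∀ i, Field (E i)] [∀ i, NumberField (E i)]
    [∀ i, IsCMField (E i)] (Φ : ∀ i, Set (E i →+* ℂ)), (∀ i, IsCMType (Φ i)) →
    PairwiseIndep E → (∀ i, ¬ Degenerate (Φ i)) →
    ∀ (J : Type) [Fintype J] (t : J → ι) (v : ℕ) (V : Coh v),
      (∀ i, SmallBetti V (E i) ∨ UnrelatedHodge V (E i)) →
      ∀ (W' T' : Type) [AddCommGroup W'] [Module ℚ W'] [AddCommGroup T'] [Module ℂ T']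
        (per' : W' →+ T') (v' : ℕ) (V' : Coh v') (M MZ : Type) [AddCommGroup M] [Module ℚ M]
        [AddCommGroup MZ] [Module ℚ MZ] (K : Comparison (per Φ t) per' v v' M MZ),
        TransferProduct K V V' ↔ Transfer K V V'

theorem result : Statement :=
  fun _ _ _ _ _ _ _ hΦ hind hnd _ _ t _ _ hV _ _ _ _ _ _ _ _ V' _ _ _ _ _ _ K =>
    main hΦ hind hnd t hV V' K

end Pool.Agent.Results.MP_e2e4f5_ag.TimesAbelianVarieties
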