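import Pool.Agent.V11219.MinLocMain

/-!
# Hodge classes and absolute Hodge classes on products with varieties which degenerate simultaneously

Let `W` be a Weil cohomology theory with algebraically closed coefficients (singular cohomology with
complex coefficients, or `ℓ`-adic cohomology) on a class of smooth proper varieties, and let `Γ` be a group
which acts on the cohomology of the varieties `X_i` and `Z` with the formal properties of the action
of a Galois group or a Mumford-Tate group (`χ` is the action on the Tate twists, `χ = 1` for a geometric
monodromy group).

Let `H` and `C` be two systems of classes (`ClassSystem`): for every variety `A` spaces `H(A)`, `C(A)` of
cohomology classes, containing the classes of algebraic cycles and stable under products, pull-backs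
and push-forwards, such as the combinations of Hodge classes, of absolute Hodge classes, of motivated
classes or of algebraic classes. `Included H C A` is the statement `H(A) ⊆ C(A)`. On the products
considered below the space `H(A)` is supposed to be spanned by elements of `H(A)` which are multiplied
by powers of `χ(g)` by all `g` in a subgroup of finite index of `Γ` (`SemiOn`); nothing is assumed on
`C`.

The two examples for `H` = Hodge classes: (1) `Γ` is the group of complex points of the Mumford-Tate
group of the cohomology of the `X_i` and `Z`; (2) `χ = 1`, the `X_i` and `Z` are the very general members
of algebraic families over the same base, and `Γ` is the fundamental group of the base: it is known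
that Hodge classes at a very general point are invariant under a subgroup of finite index.

Let `X_i` be finitely many varieties of odd dimension for which (and for the powers of which) numerical
and homological equivalence coincide (for example curves, hypersurfaces, complete intersections), whose
transcendental cohomology `T_i` (the orthogonal complement of the algebraic classes) is concentrated in
the middle degree and irreducible under all subgroups of finite index of `Γ`. Assume:

* **(distinct)** for `i ≠ j` the representations `T_i` and `T_j` of `Γ` are not isomorphic up to scalars;
* **(small defects)** let `N` be the set of the `g ∈ Γ` with `χ(g) = 1` which act trivially on the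
  cohomology of `Z` and with `(g - 1) ^ 2 = 0` on **all** `T_j`. For every `i` some `g ∈ N` has defects
  on `T_i` without a common prime factor, or the defect two; here the defects of `g` are the rank of
  `g - 1` on `T_i` and the multiplicities of the nonzero eigenvalues of `(g - 1) (g' - 1)` on `T_i`, for
  `g' ∈ N`. (Or: the conjugates of some `g ∈ N` act irreducibly on `T_i` and the defects of all
  elements of `N` have no common prime factor.)

In example (2) the elements of `N` are, for instance, products of local monodromy operators of the
families at points of the boundary at which `Z` does not degenerate and the `X_j` have
ordinary double points, or are curves with semistable reduction; all `X_j` may degenerate at the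
same points. They belong to the Mumford-Tate group, which gives example (1).

Let `T` be a product of `Z` with arbitrary powers of the `X_i`. Then `H(T) ⊆ C(T)` **if and only if**
`H(Z) ⊆ C(Z)`. With `C` = the absolute Hodge classes (for the de Rham, or the `ℓ`-adic component): all
Hodge classes on `T` are absolute Hodge if and only if all Hodge classes on `Z` are. For instance
this holds if `Z` is an abelian variety, by the theorem of Deligne, and the `X_i` may be
hypersurfaces of any odd dimension, whose motives are not of abelian type. With `C` = algebraic
classes: the Hodge conjecture holds for `T` if and only if it holds for `Z`. Nothing is assumed on `Z`.

Proof. By the theory of extremal elements of Lie algebras (see `MP_0d42ed_ag.SemistableProducts`) a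
potentially semi-invariant class on the product of a power of `X_i` with `A` is a combination of
products `m_l x_l` of algebraic classes `m_l` of the power, linearly independent, with classes `x_l` of
`A`. As numerical and homological equivalence coincide for the power of `X_i`, the intersection form on
its algebraic classes is nondegenerate, so `x_l` is the push-forward of the product of the class with an
algebraic class of the power, and belongs to `H(A)` if the class belongs to `H`.
-/

universe u

namespace Pool.Agent.Results.MP_e2e4f5_ag.TwoSystems

open Pool.Agent.H914 Pool.Agent.H281R3.HT Pool.Agent.TH125.Gal Pool.Agent.V11219.Min
  Pool.Agent.V11219.Cls

/-- **Two systems of classes on products with powers.** -/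
theorem result {k : Type u} [Field k] {𝒱 : VarClass k} {ops : CycleOps 𝒱}
    (W : WeilCohomology.{u, 0} ops) [IsAlgClosed W.K] {Γ : Type} [Group Γ] (χ : CharOf W Γ)
    (H C : Classes W) (hH : ClassSystem W H) (hC : ClassSystem W C)
    {ι : Type} [Finite ι] (X : ι → GVar W Γ) (Z : GVar W Γ) (h : Family χ X Z)
    (hD : ∀ i, PowersHomEqNum (X i)) (hs : ∀ S A, Tower X Z S A → SemiOn χ H A)
    (S : Set ι) (T : GVar W Γ) (hT : Tower X Z S T) : Included H C T ↔ Included H C Z := by
  classical
  have := Fintype.ofFinite ι
  exact two_sst hH hC h.vars hD hs hT

end Pool.Agent.Results.MP_e2e4f5_ag.TwoSystems
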